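import Pool.Agent.Lib.MP_5349a4_pr.M.Iface3
import Pool.Agent.Lib.MP_5349a4_pr.M.Base

/-!
# Module STATE: mean of `Zbc` given `LL` ((8.1) part (2))

The green configuration is fixed (Fubini); for a fixed green configuration the set
`nbd r LL \ W` is a stopping set of the process of the points which are not green.
-/

set_option autoImplicit false
set_option linter.unusedVariables false
open MeasureTheory Set
open scoped ENNReal NNReal

namespace Pool.Agent.Lib.MP_5349a4_pr.H43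

open Pool.Agent.Lib.MP_5349a4_pr

section det
variable {d : ℕ} {r : ℝ}

lemma cl_mem {P : Set (Eu d)} {x y : Eu d} (h : y ∈ cl (ad r) P x) : y = x ∨ y ∈ P := by
  rcases Relation.ReflTransGen.cases_tail h with h' | ⟨c, _, hc⟩
  · exact Or.inl h'
  · exact Or.inr hc.2

lemma cl_symm {P : Set (Eu d)} {x y : Eu d} (hx : x ∈ P) (h : y ∈ cl (ad r) P x) :
    x ∈ cl (ad r) P y := by
  unfold cl at h ⊢
  change Relation.ReflTransGen _ x y at h
  change Relation.ReflTransGen _ y x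
  induction h with
  | refl => exact Relation.ReflTransGen.refl
  | tail hab hbc ih =>
    rename_i b c
    have hb : b ∈ P := by
      rcases cl_mem (r := r) (P := P) (x := x) hab with h' | h'
      · rw [h']; exact hx
      · exact h'
    exact Relation.ReflTransGen.head ⟨ad_symm r _ _ hbc.1, hb⟩ ih

lemma mem_nbd_LLs {N G W : Set (Eu d)} {e : Eu d} :
    e ∈ nbd r (LLs r N G W) ↔ ∃ p ∈ G \ W, Con (ad r) ((N ∪ G) \ W) p e := by
  constructor
  · rintro ⟨u, ⟨huP, p, hp, hpu⟩, hd⟩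
    refine ⟨p, hp, u, cl_symm huP hpu, ?_⟩
    unfold ad
    rwa [dist_comm]
  · rintro ⟨p, hp, a, ha, had⟩
    have hpP : p ∈ (N ∪ G) \ W := ⟨Or.inr hp.1, hp.2⟩
    have haP : a ∈ (N ∪ G) \ W := by
      rcases cl_mem ha with h' | h'
      · rw [h']; exact hpP
      · exact h'
    refine ⟨a, ⟨haP, p, hp, cl_symm hpP ha⟩, ?_⟩
    unfold ad at had
    rwa [dist_comm]

lemma LLs_incl {A B G W : Set (Eu d)}
    (h : ∀ y ∈ A, y ∉ W → (∃ u ∈ LLs r A G W, u ∈ LLs r B G W ∧ dist y u ≤ r) → y ∈ B) :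
    LLs r A G W ⊆ LLs r B G W := by
  rintro y ⟨hy, p, hp, hyp⟩
  have key : ∀ y, y ∈ (A ∪ G) \ W → Relation.ReflTransGen (step (ad r) ((A ∪ G) \ W)) y p →
      y ∈ LLs r A G W ∧ y ∈ LLs r B G W := by
    intro y hy hyp
    induction hyp using Relation.ReflTransGen.head_induction_on with
    | refl =>
      exact ⟨⟨⟨Or.inr hp.1, hp.2⟩, p, hp, Relation.ReflTransGen.refl⟩,
        ⟨⟨Or.inr hp.1, hp.2⟩, p, hp, Relation.ReflTransGen.refl⟩⟩
    | head hyc hcp ih =>
      rename_i a c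
      obtain ⟨hcA, hcB⟩ := ih hyc.2
      have haA : a ∈ LLs r A G W := ⟨hy, p, hp, Relation.ReflTransGen.head hyc hcp⟩
      have haB : a ∈ (B ∪ G) \ W := by
        refine ⟨?_, hy.2⟩
        rcases hy.1 with h1 | h1
        · exact Or.inl (h a h1 hy.2 ⟨c, hcA, hcB, hyc.1⟩)
        · exact Or.inr h1
      obtain ⟨hcB1, p', hp', hcp'⟩ := hcB
      exact ⟨haA, haB, p', hp', Relation.ReflTransGen.head ⟨hyc.1, hcB1⟩ hcp'⟩
  exact (key y hy hyp).2

/-- the stopping property at the level of `LL` -/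
lemma LLs_eq {P Q G W : Set (Eu d)}
    (h : Q ∩ (nbd r (LLs r P G W) \ W) = P ∩ (nbd r (LLs r P G W) \ W)) :
    LLs r Q G W = LLs r P G W := by
  apply Set.Subset.antisymm
  · apply LLs_incl
    rintro y hy hyW ⟨u, _, hu, hd⟩
    have : y ∈ Q ∩ (nbd r (LLs r P G W) \ W) := ⟨hy, ⟨u, hu, hd⟩, hyW⟩
    rw [h] at this
    exact this.1
  · apply LLs_incl
    rintro y hy hyW ⟨u, hu, _, hd⟩
    have : y ∈ P ∩ (nbd r (LLs r P G W) \ W) := ⟨hy, ⟨u, hu, hd⟩, hyW⟩
    rw [← h] at this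
    exact this.1

lemma num_mono (R : Finset (Eu d)) {p q : Eu d → Prop} (h : ∀ x, p x → q x) :
    num R p ≤ num R q := Finset.sum_le_sum fun x _ => ind_mono (h x)

lemma con_mono (hClb : ClbStatement) {P Q : Set (Eu d)} (h : P ⊆ Q) {x y : Eu d}
    (hc : Con (ad r) P x y) : Con (ad r) Q x y := by
  obtain ⟨a, ha, hay⟩ := hc
  exact ⟨a, (hClb (Eu d) (ad r) P Q x y).1 h ha, hay⟩

/-- summand -/
noncomputable def Fv (r : ℝ) (O K : Set (Eu d)) (R : Finset (Eu d)) (v : Eu d) : ℝ≥0∞ :=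
  num R fun x => Con (ad r) ((O \ K) \ {v}) v x

/-- the functional of the explored part `I` and the unexplored part `O` -/
noncomputable def Zf (r : ℝ) (I O G W : Set (Eu d)) (R : Finset (Eu d)) : ℝ≥0∞ :=
  (∑' v : O, ind ((v : Eu d) ∈ W ∧ ((v : Eu d) ∈ nbd r (LLs r I G W) ∨ (v : Eu d) ∈ G)) *
      Fv r O (nbd r (LLs r I G W)) R v)
    + ∑' v : G, ind ((v : Eu d) ∈ W) * Fv r O (nbd r (LLs r I G W)) R v

lemma Zbc_le (N G W : Set (Eu d)) (R : Finset (Eu d)) :
    Zbc r N G W R ≤ Zf r (N ∩ (nbd r (LLs r N G W) \ W)) (N \ (nbd r (LLs r N G W) \ W)) G W R := by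
  classical
  have hLL : LLs r (N ∩ (nbd r (LLs r N G W) \ W)) G W = LLs r N G W := by
    apply LLs_eq
    rw [Set.inter_assoc, Set.inter_self]
  unfold Zf
  rw [hLL]
  set K := nbd r (LLs r N G W) with hK
  have hF : ∀ v, Fv r (N \ (K \ W)) K R v = num R fun x => Con (ad r) ((N \ K) \ {v}) v x := by
    intro v
    unfold Fv
    have : (N \ (K \ W)) \ K = N \ K := by
      ext e
      simp only [Set.mem_sdiff]
      tauto
    rw [this]
  simp only [hF]
  unfold Zbc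
  rw [← hK]
  rw [tsum_subtype ((N ∪ G) ∩ W) (fun v => ind (v ∈ K ∨ v ∈ G) * num R fun x => Con (ad r) ((N \ K) \ {v}) v x),
    tsum_subtype (N \ (K \ W)) (fun v => ind (v ∈ W ∧ (v ∈ K ∨ v ∈ G)) *
      num R fun x => Con (ad r) ((N \ K) \ {v}) v x),
    tsum_subtype G (fun v => ind (v ∈ W) * num R fun x => Con (ad r) ((N \ K) \ {v}) v x),
    ← ENNReal.tsum_add]
  apply ENNReal.tsum_le_tsum
  intro v
  by_cases hv : v ∈ (N ∪ G) ∩ W
  · rw [Set.indicator_of_mem hv]
    by_cases hc : v ∈ K ∨ v ∈ G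
    · rcases hv.1 with hN | hG
      · have h1 : v ∈ N \ (K \ W) := ⟨hN, fun h => h.2 hv.2⟩
        rw [Set.indicator_of_mem h1, ind_of hc, ind_of ⟨hv.2, hc⟩]
        exact le_self_add
      · rw [Set.indicator_of_mem hG, ind_of hc, ind_of hv.2]
        exact le_add_self
    · rw [ind_not hc, zero_mul]
      exact zero_le
  · rw [Set.indicator_of_notMem hv]
    exact zero_le

/-- the functional -/
noncomputable def ff (r : ℝ) (G W : Set (Eu d)) (R : Finset (Eu d)) (q₂ : ℝ≥0∞)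
    (I O : Set (Eu d)) : ℝ≥0∞ :=
  ind (volume (nbd r (LLs r I G W) ∩ W) ≤ q₂) * Zf r I O G W R

/-- the stopping set -/
def SS (r : ℝ) (G W : Set (Eu d)) (P : Set (Eu d)) : Set (Eu d) := nbd r (LLs r P G W) \ W

lemma LLs_SS (N G W : Set (Eu d)) : LLs r (N ∩ SS r G W N) G W = LLs r N G W := by
  unfold SS
  apply LLs_eq
  rw [Set.inter_assoc, Set.inter_self]

lemma point_le (N G W : Set (Eu d)) (R : Finset (Eu d)) (q₂ : ℝ≥0∞) :
    ind (volume (nbd r (LLs r N G W) ∩ W) ≤ q₂) * Zbc r N G W R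
      ≤ ff r G W R q₂ (N ∩ SS r G W N) (N \ SS r G W N) := by
  unfold ff
  rw [LLs_SS]
  exact mul_le_mul_right (Zbc_le N G W R) _

end det

section meas
variable {d : ℕ} {r : ℝ}

lemma exists_union_diff (hMR : MRestrStatement) (hMO : MOpsStatement) (g : Cfg (Eu d))
    {W : Set (Eu d)} (hW : MeasurableSet W) :
    ∃ m : Cfg (Eu d) → Cfg (Eu d), Measurable m ∧ ∀ ω, pt (m ω) = (pt ω ∪ pt g) \ W := by
  obtain ⟨a, ha, ha'⟩ := hMO.1 (Eu d)
  obtain ⟨ρ, hρ, hρ'⟩ := hMR Unit (Eu d) {q : Unit × Eu d | q.2 ∉ W} (measurable_snd hW.compl)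
  refine ⟨fun ω => ρ ((), a (ω, g)),
    hρ.comp (measurable_const.prodMk (ha.comp (measurable_id.prodMk measurable_const))), ?_⟩
  intro ω
  rw [hρ', ha']
  rfl

lemma measK (hMR : MRestrStatement) (hMO : MOpsStatement) (hCon : ConMStatement)
    (g : Cfg (Eu d)) {W : Set (Eu d)} (hW : MeasurableSet W) :
    MeasurableSet {q : Eu d × Cfg (Eu d) | q.1 ∈ nbd r (LLs r (pt q.2) (pt g) W)} := by
  obtain ⟨m, hm, hm'⟩ := exists_union_diff hMR hMO g hW
  have : {q : Eu d × Cfg (Eu d) | q.1 ∈ nbd r (LLs r (pt q.2) (pt g) W)}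
      = ⋃ p ∈ pt g \ W, {q : Eu d × Cfg (Eu d) | Con (ad r) (pt (m q.2)) p q.1} := by
    ext q
    simp only [Set.mem_iUnion]
    constructor
    · intro h
      obtain ⟨p, hp, hc⟩ := mem_nbd_LLs.1 h
      refine ⟨p, hp, ?_⟩
      show Con (ad r) (pt (m q.2)) p q.1
      rw [hm']
      exact hc
    · rintro ⟨p, hp, hc⟩
      have hc' : Con (ad r) (pt (m q.2)) p q.1 := hc
      rw [hm'] at hc'
      exact mem_nbd_LLs.2 ⟨p, hp, hc'⟩
  rw [this]
  refine ((pt_finite g).subset Set.sdiff_subset).measurableSet_biUnion ?_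
  intro p hp
  have h := (hCon (Eu d) (ad r) (madj_ad r)).1
  exact (Measurable.prodMk measurable_const
    (Measurable.prodMk measurable_fst (hm.comp measurable_snd))) h

lemma stopS (hMR : MRestrStatement) (hMO : MOpsStatement) (hCon : ConMStatement)
    (g : Cfg (Eu d)) {W : Set (Eu d)} (hW : MeasurableSet W) :
    Stop (SS r (pt g) W) := by
  unfold SS
  refine ⟨?_, ?_⟩
  · exact (measK hMR hMO hCon g hW).inter ((measurable_fst hW).compl)
  · intro P Q _ _ h
    show nbd r (LLs r Q (pt g) W) \ W = nbd r (LLs r P (pt g) W) \ W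
    rw [LLs_eq h]

lemma measFv (hMR : MRestrStatement) (hMO : MOpsStatement) (hCon : ConMStatement)
    (g : Cfg (Eu d)) {W : Set (Eu d)} (hW : MeasurableSet W) (R : Finset (Eu d)) :
    Measurable (fun q : (Cfg (Eu d) × Eu d) × Cfg (Eu d) =>
      Fv r (pt q.2) (nbd r (LLs r (pt q.1.1) (pt g) W)) R q.1.2) := by
  have hA : MeasurableSet {q : (Cfg (Eu d) × Eu d) × Eu d |
      ¬ (q.2 ∈ nbd r (LLs r (pt q.1.1) (pt g) W)) ∧ ¬ (q.2 = q.1.2)} := by
    refine MeasurableSet.inter ?_ ?_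
    · exact ((measurable_snd.prodMk (measurable_fst.comp measurable_fst))
        (measK hMR hMO hCon g hW)).compl
    · exact (measurableSet_eq_fun measurable_snd (measurable_snd.comp measurable_fst)).compl
  obtain ⟨ρ, hρ, hρ'⟩ := hMR (Cfg (Eu d) × Eu d) (Eu d) _ hA
  have e : ∀ q : (Cfg (Eu d) × Eu d) × Cfg (Eu d),
      Fv r (pt q.2) (nbd r (LLs r (pt q.1.1) (pt g) W)) R q.1.2
      = ∑ x ∈ R, ind (Con (ad r) (pt (ρ q)) q.1.2 x) := by
    intro q
    have : pt (ρ q) = (pt q.2 \ nbd r (LLs r (pt q.1.1) (pt g) W)) \ {q.1.2} := by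
      obtain ⟨t, ω⟩ := q
      rw [hρ']
      ext y
      simp only [Set.mem_sdiff, Set.mem_singleton_iff]
      constructor
      · rintro ⟨h1, h2, h3⟩
        exact ⟨⟨h1, h2⟩, h3⟩
      · rintro ⟨⟨h1, h2⟩, h3⟩
        exact ⟨h1, h2, h3⟩
    rw [this]
    rfl
  simp only [e]
  refine Finset.measurable_fun_sum R fun x _ => measurable_ind ?_
  have h := (hCon (Eu d) (ad r) (madj_ad r)).1
  exact (Measurable.prodMk (measurable_snd.comp measurable_fst)
    (Measurable.prodMk measurable_const hρ)) h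

lemma measZf (hMR : MRestrStatement) (hMO : MOpsStatement) (hMS : MSumStatement)
    (hCon : ConMStatement) (g : Cfg (Eu d)) {W : Set (Eu d)} (hW : MeasurableSet W)
    (R : Finset (Eu d)) :
    Measurable (fun q : Cfg (Eu d) × Cfg (Eu d) => Zf r (pt q.1) (pt q.2) (pt g) W R) := by
  have hF := measFv (r := r) hMR hMO hCon g hW R
  have hK := measK (r := r) hMR hMO hCon g hW
  have hg : MeasurableSet (pt g) := (pt_finite g).measurableSet
  have m1 : Measurable fun q : Cfg (Eu d) × Eu d × Cfg (Eu d) => q.2.1 :=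
    measurable_fst.comp measurable_snd
  have m2 : Measurable fun q : Cfg (Eu d) × Eu d × Cfg (Eu d) => (q.2.1, q.1) :=
    m1.prodMk measurable_fst
  have m3 : Measurable fun q : Cfg (Eu d) × Eu d × Cfg (Eu d) => ((q.1, q.2.1), q.2.2) :=
    (measurable_fst.prodMk m1).prodMk (measurable_snd.comp measurable_snd)
  have s1 : MeasurableSet {q : Cfg (Eu d) × Eu d × Cfg (Eu d) | q.2.1 ∈ W} := m1 hW
  have s2 : MeasurableSet {q : Cfg (Eu d) × Eu d × Cfg (Eu d) |
      q.2.1 ∈ nbd r (LLs r (pt q.1) (pt g) W)} := m2 hK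
  have s3 : MeasurableSet {q : Cfg (Eu d) × Eu d × Cfg (Eu d) | q.2.1 ∈ pt g} := m1 hg
  have s4 : MeasurableSet {q : Cfg (Eu d) × Eu d × Cfg (Eu d) |
      q.2.1 ∈ W ∧ (q.2.1 ∈ nbd r (LLs r (pt q.1) (pt g) W) ∨ q.2.1 ∈ pt g)} := s1.inter (s2.union s3)
  have f0 : Measurable fun q : Cfg (Eu d) × Eu d × Cfg (Eu d) =>
      Fv r (pt q.2.2) (nbd r (LLs r (pt q.1) (pt g) W)) R q.2.1 := by
    have := hF.comp m3
    simpa only [Function.comp_def] using this
  have fi : Measurable fun q : Cfg (Eu d) × Eu d × Cfg (Eu d) =>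
      ind (q.2.1 ∈ W ∧ (q.2.1 ∈ nbd r (LLs r (pt q.1) (pt g) W) ∨ q.2.1 ∈ pt g)) :=
    measurable_ind s4
  have f1 : Measurable fun q : Cfg (Eu d) × Eu d × Cfg (Eu d) =>
      ind (q.2.1 ∈ W ∧ (q.2.1 ∈ nbd r (LLs r (pt q.1) (pt g) W) ∨ q.2.1 ∈ pt g)) *
        Fv r (pt q.2.2) (nbd r (LLs r (pt q.1) (pt g) W)) R q.2.1 := fi.mul f0
  have f2 := hMS.1 (Cfg (Eu d)) (Eu d) (fun t p P => ind (p ∈ W ∧
    (p ∈ nbd r (LLs r (pt t) (pt g) W) ∨ p ∈ pt g)) *
      Fv r P (nbd r (LLs r (pt t) (pt g) W)) R p) f1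
  have m4 : ∀ v : Eu d, Measurable fun q : Cfg (Eu d) × Cfg (Eu d) => ((q.1, v), q.2) :=
    fun v => (measurable_fst.prodMk measurable_const).prodMk measurable_snd
  have f4 : ∀ v : Eu d, Measurable fun q : Cfg (Eu d) × Cfg (Eu d) =>
      Fv r (pt q.2) (nbd r (LLs r (pt q.1) (pt g) W)) R v := by
    intro v
    have := hF.comp (m4 v)
    simpa only [Function.comp_def] using this
  have f3 : Measurable fun q : Cfg (Eu d) × Cfg (Eu d) => ∑' v : pt g, ind ((v : Eu d) ∈ W) *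
      Fv r (pt q.2) (nbd r (LLs r (pt q.1) (pt g) W)) R v := by
    have : Finite (pt g) := (pt_finite g).to_subtype
    have : Countable (pt g) := inferInstance
    refine Measurable.tsum fun v => ?_
    exact measurable_const.mul (f4 v)
  unfold Zf
  exact f2.add f3

lemma measf (hMR : MRestrStatement) (hMO : MOpsStatement) (hMS : MSumStatement)
    (hCon : ConMStatement) (g : Cfg (Eu d)) {W : Set (Eu d)} (hW : MeasurableSet W)
    (R : Finset (Eu d)) (q₂ : ℝ≥0∞) :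
    Measurable (fun q : Cfg (Eu d) × Cfg (Eu d) => ff r (pt g) W R q₂ (pt q.1) (pt q.2)) := by
  unfold ff
  refine Measurable.mul (measurable_ind ?_) (measZf hMR hMO hMS hCon g hW R)
  have h1 : MeasurableSet {q : Cfg (Eu d) × Eu d |
      q.2 ∈ nbd r (LLs r (pt q.1) (pt g) W) ∩ W} :=
    ((measurable_snd.prodMk measurable_fst) (measK hMR hMO hCon g hW)).inter (measurable_snd hW)
  have h2 : Measurable fun ω : Cfg (Eu d) => volume (nbd r (LLs r (pt ω) (pt g) W) ∩ W) :=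
    measurable_measure_prodMk_left h1
  exact measurableSet_le (h2.comp measurable_fst) measurable_const

end meas

section main
variable {d : ℕ} {r : ℝ}

/-- the unexplored part, for a fixed explored part -/
lemma inner_le (hMecke : MeckeStatement) (hMS : MSumStatement) (hCon : ConMStatement)
    (hClb : ClbStatement) (hProb : ProbStatement) (ρ : Measure (Eu d)) [IsFiniteMeasure ρ]
    [NullSingletonClass ρ] (G K W S : Set (Eu d)) (R : Finset (Eu d)) (T c : ℝ≥0∞)
    (hG : G.Finite) (hK : MeasurableSet K) (hW : MeasurableSet W)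
    (hT : ∀ v, ∑ x ∈ R, tp (ad r) ρ v x ≤ T) (hc : ρ (K ∩ W) ≤ c) :
    ∫⁻ ω, ((∑' v : (pt ω \ S : Set (Eu d)), ind ((v : Eu d) ∈ W ∧ ((v : Eu d) ∈ K ∨ (v : Eu d) ∈ G)) *
        Fv r (pt ω \ S) K R v) + ∑' v : G, ind ((v : Eu d) ∈ W) * Fv r (pt ω \ S) K R v) ∂PL ρ
      ≤ c * T + (∑' v : G, ind ((v : Eu d) ∈ W)) * T := by
  classical
  have := (hProb (Eu d) ρ).1
  have hC := (hCon (Eu d) (ad r) (madj_ad r)).1
  have : Finite G := hG.to_subtype
  -- pointwise bounds
  have h1 : ∀ ω : Cfg (Eu d), (∑' v : (pt ω \ S : Set (Eu d)),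
      ind ((v : Eu d) ∈ W ∧ ((v : Eu d) ∈ K ∨ (v : Eu d) ∈ G)) * Fv r (pt ω \ S) K R v)
      ≤ ∑' v : (pt ω : Set (Eu d)), ind ((v : Eu d) ∈ W ∧ ((v : Eu d) ∈ K ∨ (v : Eu d) ∈ G)) *
        num R (Con (ad r) (pt ω \ {(v : Eu d)}) v) := by
    intro ω
    rw [tsum_subtype (pt ω \ S) (fun v => ind (v ∈ W ∧ (v ∈ K ∨ v ∈ G)) * Fv r (pt ω \ S) K R v),
      tsum_subtype (pt ω) (fun v => ind (v ∈ W ∧ (v ∈ K ∨ v ∈ G)) *
        num R (Con (ad r) (pt ω \ {v}) v))]
    apply ENNReal.tsum_le_tsum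
    intro v
    by_cases hv : v ∈ pt ω \ S
    · rw [Set.indicator_of_mem hv, Set.indicator_of_mem hv.1]
      refine mul_le_mul_right ?_ _
      unfold Fv
      apply num_mono
      intro x hx
      refine con_mono hClb ?_ hx
      intro e he
      exact ⟨he.1.1.1, he.2⟩
    · rw [Set.indicator_of_notMem hv]
      exact zero_le
  have h2 : ∀ (ω : Cfg (Eu d)) (v : G), Fv r (pt ω \ S) K R v ≤ num R (Con (ad r) (pt ω) v) := by
    intro ω v
    unfold Fv
    apply num_mono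
    intro x hx
    refine con_mono hClb ?_ hx
    intro e he
    exact he.1.1.1
  have hnum : ∀ v : Eu d, ∫⁻ ω, num R (Con (ad r) (pt ω) v) ∂PL ρ = ∑ x ∈ R, tp (ad r) ρ v x := by
    intro v
    unfold num
    rw [lintegral_finsetSum]
    · apply Finset.sum_congr rfl
      intro x _
      have hm : MeasurableSet {ω : Cfg (Eu d) | Con (ad r) (pt ω) v x} :=
        (Measurable.prodMk measurable_const (Measurable.prodMk measurable_const measurable_id)) hC
      rw [lintegral_ind hm]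
      rfl
    · intro x _
      exact measurable_ind
        ((Measurable.prodMk measurable_const (Measurable.prodMk measurable_const measurable_id)) hC)
  have hmeasnum : Measurable fun q : Eu d × Cfg (Eu d) => num R (Con (ad r) (pt q.2) q.1) := by
    unfold num
    refine Finset.measurable_fun_sum R fun x _ => measurable_ind ?_
    exact (Measurable.prodMk measurable_fst (Measurable.prodMk measurable_const measurable_snd)) hC
  have hslice : ∀ v : Eu d, Measurable fun ω : Cfg (Eu d) => num R (Con (ad r) (pt ω) v) := by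
    intro v
    have m : Measurable fun ω : Cfg (Eu d) => (v, ω) := measurable_const.prodMk measurable_id
    have := hmeasnum.comp m
    simpa only [Function.comp_def] using this
  have hset : MeasurableSet {v : Eu d | v ∈ W ∧ (v ∈ K ∨ v ∈ G)} :=
    hW.inter (hK.union hG.measurableSet)
  -- the first part
  have hfirst : ∫⁻ ω, ∑' v : (pt ω : Set (Eu d)),
      ind ((v : Eu d) ∈ W ∧ ((v : Eu d) ∈ K ∨ (v : Eu d) ∈ G)) *
        num R (Con (ad r) (pt ω \ {(v : Eu d)}) v) ∂PL ρ ≤ c * T := by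
    have hg : Measurable (fun q : Eu d × Cfg (Eu d) => ind (q.1 ∈ W ∧ (q.1 ∈ K ∨ q.1 ∈ G)) *
        num R (Con (ad r) (pt q.2) q.1)) :=
      (measurable_ind (measurable_fst hset)).mul hmeasnum
    rw [(hMecke (Eu d) ρ (fun v P => ind (v ∈ W ∧ (v ∈ K ∨ v ∈ G)) * num R (Con (ad r) P v)) hg).2]
    calc ∫⁻ v, ∫⁻ ω, ind (v ∈ W ∧ (v ∈ K ∨ v ∈ G)) * num R (Con (ad r) (pt ω) v) ∂PL ρ ∂ρ
        ≤ ∫⁻ v, ind (v ∈ W ∧ (v ∈ K ∨ v ∈ G)) * T ∂ρ := by
          apply lintegral_mono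
          intro v
          show ∫⁻ ω, ind (v ∈ W ∧ (v ∈ K ∨ v ∈ G)) * num R (Con (ad r) (pt ω) v) ∂PL ρ ≤ _
          rw [lintegral_const_mul _ (hslice v), hnum]
          exact mul_le_mul_right (hT v) _
      _ = ρ {v | v ∈ W ∧ (v ∈ K ∨ v ∈ G)} * T := by
          rw [lintegral_mul_const _ (measurable_ind hset), lintegral_ind hset]
      _ ≤ c * T := by
          refine mul_le_mul_left ?_ _
          calc ρ {v | v ∈ W ∧ (v ∈ K ∨ v ∈ G)} ≤ ρ ((K ∩ W) ∪ G) := by
                apply measure_mono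
                rintro v ⟨hv, hv' | hv'⟩
                · exact Or.inl ⟨hv', hv⟩
                · exact Or.inr hv'
            _ ≤ ρ (K ∩ W) + ρ G := measure_union_le _ _
            _ = ρ (K ∩ W) := by rw [hG.measure_zero ρ, add_zero]
            _ ≤ c := hc
  -- the second part
  have hsecond : ∫⁻ ω, ∑' v : G, ind ((v : Eu d) ∈ W) * num R (Con (ad r) (pt ω) v) ∂PL ρ
      ≤ (∑' v : G, ind ((v : Eu d) ∈ W)) * T := by
    rw [lintegral_tsum]
    · rw [← ENNReal.tsum_mul_right]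
      apply ENNReal.tsum_le_tsum
      intro v
      rw [lintegral_const_mul _ (hslice v), hnum]
      exact mul_le_mul_right (hT v) _
    · intro v
      exact (measurable_const.mul (hslice v)).aemeasurable
  calc _ ≤ ∫⁻ ω, ((∑' v : (pt ω : Set (Eu d)),
        ind ((v : Eu d) ∈ W ∧ ((v : Eu d) ∈ K ∨ (v : Eu d) ∈ G)) *
          num R (Con (ad r) (pt ω \ {(v : Eu d)}) v))
        + ∑' v : G, ind ((v : Eu d) ∈ W) * num R (Con (ad r) (pt ω) v)) ∂PL ρ := by
        apply lintegral_mono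
        intro ω
        refine add_le_add (h1 ω) (ENNReal.tsum_le_tsum fun v => ?_)
        exact mul_le_mul_right (h2 ω v) _
    _ = (∫⁻ ω, ∑' v : (pt ω : Set (Eu d)),
        ind ((v : Eu d) ∈ W ∧ ((v : Eu d) ∈ K ∨ (v : Eu d) ∈ G)) *
          num R (Con (ad r) (pt ω \ {(v : Eu d)}) v) ∂PL ρ)
        + ∫⁻ ω, ∑' v : G, ind ((v : Eu d) ∈ W) * num R (Con (ad r) (pt ω) v) ∂PL ρ := by
        rw [lintegral_add_right]
        have : Countable G := inferInstance
        refine Measurable.tsum fun v => ?_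
        exact measurable_const.mul (hslice v)
    _ ≤ _ := add_le_add hfirst hsecond

lemma inner_le' (hMecke : MeckeStatement) (hMR : MRestrStatement) (hMO : MOpsStatement)
    (hMS : MSumStatement) (hCon : ConMStatement)
    (hClb : ClbStatement) (hProb : ProbStatement) (ρ : Measure (Eu d)) [IsFiniteMeasure ρ]
    [NullSingletonClass ρ] (g ω₀ : Cfg (Eu d)) (W : Set (Eu d)) (R : Finset (Eu d)) (T c q₂ : ℝ≥0∞)
    (hW : MeasurableSet W) (hT : ∀ v, ∑ x ∈ R, tp (ad r) ρ v x ≤ T)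
    (hc : ∀ K : Set (Eu d), volume (K ∩ W) ≤ q₂ → ρ (K ∩ W) ≤ c) :
    ∫⁻ ω, ff r (pt g) W R q₂ (pt ω₀ ∩ SS r (pt g) W (pt ω₀)) (pt ω \ SS r (pt g) W (pt ω₀)) ∂PL ρ
      ≤ c * T + (∑' v : pt g, ind ((v : Eu d) ∈ W)) * T := by
  classical
  unfold ff
  rw [LLs_SS]
  by_cases hq : volume (nbd r (LLs r (pt ω₀) (pt g) W) ∩ W) ≤ q₂
  · have e : ∀ ω : Cfg (Eu d), ind (volume (nbd r (LLs r (pt ω₀) (pt g) W) ∩ W) ≤ q₂) *
        Zf r (pt ω₀ ∩ SS r (pt g) W (pt ω₀)) (pt ω \ SS r (pt g) W (pt ω₀)) (pt g) W R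
        = (∑' v : (pt ω \ SS r (pt g) W (pt ω₀) : Set (Eu d)), ind ((v : Eu d) ∈ W ∧
          ((v : Eu d) ∈ nbd r (LLs r (pt ω₀) (pt g) W) ∨ (v : Eu d) ∈ pt g)) *
          Fv r (pt ω \ SS r (pt g) W (pt ω₀)) (nbd r (LLs r (pt ω₀) (pt g) W)) R v)
          + ∑' v : pt g, ind ((v : Eu d) ∈ W) *
            Fv r (pt ω \ SS r (pt g) W (pt ω₀)) (nbd r (LLs r (pt ω₀) (pt g) W)) R v := by
      intro ω
      rw [ind_of hq, one_mul]
      unfold Zf
      rw [LLs_SS]
    rw [lintegral_congr e]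
    have m : Measurable fun v : Eu d => (v, ω₀) := measurable_id.prodMk measurable_const
    have hKm : MeasurableSet (nbd r (LLs r (pt ω₀) (pt g) W)) :=
      m (measK (r := r) hMR hMO hCon g hW)
    exact inner_le hMecke hMS hCon hClb hProb ρ (pt g) _ W _ R T c (pt_finite g) hKm hW hT (hc _ hq)
  · have e : ∀ ω : Cfg (Eu d), ind (volume (nbd r (LLs r (pt ω₀) (pt g) W) ∩ W) ≤ q₂) *
        Zf r (pt ω₀ ∩ SS r (pt g) W (pt ω₀)) (pt ω \ SS r (pt g) W (pt ω₀)) (pt g) W R = 0 := by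
      intro ω
      rw [ind_not hq, zero_mul]
    rw [lintegral_congr e, lintegral_zero]
    exact zero_le

theorem state (hSmp : SmpStatement) (hMecke : MeckeStatement) (hMR : MRestrStatement)
    (hMO : MOpsStatement) (hMS : MSumStatement) (hCon : ConMStatement) (hClb : ClbStatement)
    (hProb : ProbStatement) (hHpb : HpbStatement) : StatEStatement := by
  classical
  intro d r lam h U W R q₂ T hd hr hh hU hW hT
  have := finite_leb (lam * (1 - h)) hU.2
  have := finite_leb (lam * h) hU.2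
  have := noAtoms_leb hd (lam * (1 - h)) U
  have := noAtoms_leb hd (lam * h) U
  have hPn := (hProb (Eu d) (leb (lam * (1 - h)) U)).1
  have hPg := (hProb (Eu d) (leb (lam * h) U)).1
  set ρn := leb (lam * (1 - h)) U with hρn
  set ρg := leb (lam * h) U with hρg
  have hsum : leb lam U = ρn + ρg := by
    rw [hρn, hρg, ← leb_add, ← mul_add, tsub_add_cancel_of_le hh, mul_one]
  have hT' : ∀ v, ∑ x ∈ R, tp (ad r) ρn v x ≤ T := by
    intro v
    refine le_trans (Finset.sum_le_sum fun x _ => ?_) (hT v)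
    rw [hsum]
    exact (hHpb (Eu d) ρn ρg (ad r) (fun _ => True) v x (madj_ad r) MeasurableSet.univ).2.2.2.2.2.1
  have hρ : ∀ K : Set (Eu d), volume (K ∩ W) ≤ q₂ → ρn (K ∩ W) ≤ lam * q₂ := by
    intro K hq
    rw [hρn]
    unfold leb
    rw [Measure.smul_apply, smul_eq_mul]
    refine mul_le_mul' ?_ ((Measure.restrict_apply_le _ _).trans hq)
    have : lam * (1 - h) ≤ lam := mul_le_of_le_one_right zero_le tsub_le_self
    exact_mod_cast this
  -- fixed green configuration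
  have hfix : ∀ g : Cfg (Eu d), ∫⁻ ω, ind (volume (nbd r (LLs r (pt ω) (pt g) W) ∩ W) ≤ q₂) *
      Zbc r (pt ω) (pt g) W R ∂PL ρn ≤ lam * q₂ * T + (∑' v : pt g, ind ((v : Eu d) ∈ W)) * T := by
    intro g
    have hS := stopS (r := r) hMR hMO hCon g hW
    have hf := measf (r := r) hMR hMO hMS hCon g hW R q₂
    calc ∫⁻ ω, ind (volume (nbd r (LLs r (pt ω) (pt g) W) ∩ W) ≤ q₂) *
          Zbc r (pt ω) (pt g) W R ∂PL ρn
        ≤ ∫⁻ ω, ff r (pt g) W R q₂ (pt ω ∩ SS r (pt g) W (pt ω)) (pt ω \ SS r (pt g) W (pt ω))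
            ∂PL ρn := lintegral_mono fun ω => point_le (pt ω) (pt g) W R q₂
      _ = ∫⁻ ω, ∫⁻ ω', ff r (pt g) W R q₂ (pt ω ∩ SS r (pt g) W (pt ω))
            (pt ω' \ SS r (pt g) W (pt ω)) ∂PL ρn ∂PL ρn :=
          hSmp (Eu d) ρn (SS r (pt g) W) (ff r (pt g) W R q₂) hS hf
      _ ≤ ∫⁻ ω, (lam * q₂ * T + (∑' v : pt g, ind ((v : Eu d) ∈ W)) * T) ∂PL ρn :=
          lintegral_mono fun ω => inner_le' hMecke hMR hMO hMS hCon hClb hProb ρn g ω W R T
            (lam * q₂) q₂ hW hT' hρ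
      _ = _ := by rw [lintegral_const, measure_univ, mul_one]
  have hcount : Measurable (fun g : Cfg (Eu d) => ∑' v : pt g, ind ((v : Eu d) ∈ W)) := by
    have := hMS.1 Unit (Eu d) (fun _ p _ => ind (p ∈ W))
      (measurable_ind ((measurable_fst.comp measurable_snd) hW))
    exact this.comp ((measurable_const (a := ())).prodMk measurable_id)
  calc ∫⁻ q, ind (volume (nbd r (LLs r (pt q.1) (pt q.2) W) ∩ W) ≤ q₂) *
        Zbc r (pt q.1) (pt q.2) W R ∂((PL ρn).prod (PL ρg))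
      = ∫⁻ q : Cfg (Eu d) × Cfg (Eu d), ind (volume (nbd r (LLs r (pt q.swap.1) (pt q.swap.2) W) ∩ W) ≤ q₂) *
        Zbc r (pt q.swap.1) (pt q.swap.2) W R ∂((PL ρg).prod (PL ρn)) :=
        (lintegral_prod_swap (fun q : Cfg (Eu d) × Cfg (Eu d) =>
          ind (volume (nbd r (LLs r (pt q.1) (pt q.2) W) ∩ W) ≤ q₂) *
            Zbc r (pt q.1) (pt q.2) W R)).symm
    _ ≤ ∫⁻ g, ∫⁻ ω, ind (volume (nbd r (LLs r (pt ω) (pt g) W) ∩ W) ≤ q₂) *
        Zbc r (pt ω) (pt g) W R ∂PL ρn ∂PL ρg :=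
        lintegral_prod_le _
    _ ≤ ∫⁻ g, (lam * q₂ * T + (∑' v : pt g, ind ((v : Eu d) ∈ W)) * T) ∂PL ρg :=
        lintegral_mono fun g => hfix g
    _ = lam * q₂ * T + (lam * h * volume (W ∩ U)) * T := by
        rw [lintegral_add_left measurable_const, lintegral_const, measure_univ, mul_one,
          lintegral_mul_const _ hcount]
        congr 2
        have hM := (hMecke (Eu d) ρg (fun p _ => ind (p ∈ W))
          (measurable_ind (measurable_fst hW))).1
        rw [hM]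
        simp only [lintegral_const, measure_univ, mul_one]
        have : ∫⁻ x, ind (x ∈ W) ∂ρg = ρg W := lintegral_ind hW
        rw [this, hρg]
        unfold leb
        rw [Measure.smul_apply, smul_eq_mul, Measure.restrict_apply hW]
        push_cast
        rfl
    _ = _ := by rw [add_mul]

end main

end Pool.Agent.Lib.MP_5349a4_pr.H43
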